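import Pool.Agent.Q284.M.Trans
import Pool.Agent.Q195.AP.Mcl

/-!
# The central Euler product of a variety is almost periodic in mean square

`X` is a projective variety of dimension `d` over a number field `K`, `i ≤ 2 d` (in the conjecture of
Beilinson `d = i`, an odd number), `S` is a set of primes of `K` and `α_{v,1}, …, α_{v,N}` are the
eigenvalues of Frobenius on `H^i(X)`, `v ∉ S`. Let `F` be a continuation of `L(H^i(X), s)` of polynomial
growth to some half-plane `Re s > (i+1)/2 - η`, let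

`P(y) = ∑_{q_v^k ≤ y} tr(Frob_v^k | H^i(X)) / (k q_v^{k c})`, `c = (i+1)/2`,

be the logarithm of the truncated Euler product at the centre and `γ_E` Euler's constant. For real
numbers `ρ` and `A > 0` consider the scaled deviation

`D(t) = t · (P(e^t) + ρ (γ_E + log t) - log A)`.

It is shown that the order, the leading coefficient and the Riemann hypothesis for `F` are equivalent
to the almost periodicity of `D`, and that then the spectrum of `D` consists of the ordinates of the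
zeros of `F` on the central line, with all multiplicities.
-/

set_option autoImplicit false

namespace Pool.Agent.Results.MP_6dc9d1_nt.CentralSpectrum

open Filter Topology MeasureTheory Set NumberField IsDedekindDomain
open Pool.Agent.TH958.BV (IsFrobenius cone)

variable {K : Type} [Field K] [NumberField K] {N : ℕ}

/-- `q_v`, the number of elements of the residue field of `v`. -/
noncomputable def q (v : HeightOneSpectrum (𝓞 K)) : ℕ := Ideal.absNorm v.asIdeal

/-- The centre `(i + 1)/2` of the functional equation. -/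
noncomputable def centre (i : ℕ) : ℝ := ((i : ℝ) + 1) / 2

/-- The L-function `∏_{v ∉ S} ∏_j (1 - α_{v,j} q_v^{-s})⁻¹`. -/
noncomputable def LFun (S : Set (HeightOneSpectrum (𝓞 K)))
    (α : HeightOneSpectrum (𝓞 K) → Fin N → ℂ) (s : ℂ) : ℂ :=
  ∏' v : {v // v ∉ S}, ∏ j, (1 - α v.1 j * (q v.1 : ℂ) ^ (-s))⁻¹

/-- `F` is a continuation of polynomial growth of the L-function to `Re s > (i + 1)/2 - η`. -/
structure IsContinuation (S : Set (HeightOneSpectrum (𝓞 K))) (i : ℕ)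
    (α : HeightOneSpectrum (𝓞 K) → Fin N → ℂ) (η : ℝ) (F : ℂ → ℂ) : Prop where
  pos : 0 < η
  eq : ∀ s : ℂ, (i : ℝ) / 2 + 1 < s.re → F s = LFun S α s
  diff : ∀ s : ℂ, centre i - η < s.re → DifferentiableAt ℂ F s
  growth : ∃ (C : ℝ) (κ : ℕ), ∀ s : ℂ, centre i - η < s.re → ‖F s‖ ≤ C * (1 + ‖s‖) ^ κ

/-- The Riemann hypothesis: all zeros lie in `Re s ≤ (i + 1)/2`. -/
def ZerosLeft (i : ℕ) (F : ℂ → ℂ) : Prop := ∀ s : ℂ, F s = 0 → s.re ≤ centre i

/-- The multiplicity of the zero of `F` at `(i + 1)/2 + iγ` (it is `0` if there is no zero). -/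
noncomputable def mult (i : ℕ) (F : ℂ → ℂ) (γ : ℝ) : ℕ :=
  analyticOrderNatAt F ((centre i : ℂ) + Complex.I * γ)

/-- The logarithm `∑ (∑_j α_{v,j}^k) / (k q_v^{k c})`, `c = (i + 1)/2`, of the Euler product at the
centre, over the prime powers `q_v^k ≤ y`, `v ∉ S`, `k = 1, 2, …` (here `k` is `p.2 + 1`). -/
noncomputable def logPowers (S : Set (HeightOneSpectrum (𝓞 K))) (i : ℕ)
    (α : HeightOneSpectrum (𝓞 K) → Fin N → ℂ) (y : ℝ) : ℝ :=
  ∑ᶠ (p : {v // v ∉ S} × ℕ) (_ : (q p.1.1 : ℝ) ^ (p.2 + 1) ≤ y),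
    (∑ j, α p.1.1 j ^ (p.2 + 1)).re / (((p.2 : ℝ) + 1) * (q p.1.1 : ℝ) ^ (((p.2 : ℝ) + 1) * centre i))

/-- The deviation `P(e^t) + ρ (γ_E + log t) - log A`, `P = logPowers`. -/
noncomputable def dev (S : Set (HeightOneSpectrum (𝓞 K))) (i : ℕ)
    (α : HeightOneSpectrum (𝓞 K) → Fin N → ℂ) (ρ A : ℝ) (t : ℝ) : ℝ :=
  logPowers S i α (Real.exp t) + ρ * (Real.eulerMascheroniConstant + Real.log t) - Real.log A

/-- The scaled deviation `D(t)`. -/
noncomputable def D (S : Set (HeightOneSpectrum (𝓞 K))) (i : ℕ)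
    (α : HeightOneSpectrum (𝓞 K) → Fin N → ℂ) (ρ A : ℝ) (t : ℝ) : ℝ := t * dev S i α ρ A t

/-- The spectral coefficient `-m(γ)/(iγ)`, `m(γ)` the multiplicity of the zero at `(i + 1)/2 + iγ`
(it is `0` for `γ = 0`, by the convention `x / 0 = 0`). -/
noncomputable def coeff (i : ℕ) (F : ℂ → ℂ) (γ : ℝ) : ℂ := -((mult i F γ : ℂ) / (Complex.I * γ))

theorem dev_eq (S : Set (HeightOneSpectrum (𝓞 K))) (i : ℕ)
    (α : HeightOneSpectrum (𝓞 K) → Fin N → ℂ) (ρ A t : ℝ) : dev S i α ρ A t =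
      Pool.Agent.TH270.MS.DvR (Q284.M.NN fun v => v ∉ S) (Q284.M.al i α) ρ A (Real.exp t) := by
  unfold dev Pool.Agent.TH270.MS.DvR
  rw [Real.log_exp]
  congr 2
  unfold logPowers Pool.Agent.TH270.MS.Pl
  refine finsum_congr fun p => finsum_congr fun _ => ?_
  rw [show p = (p.1, p.2) from rfl, Q284.M.cP_frob]
  rfl

/-- **The central Euler product of a variety is almost periodic in mean square.**

Let `X` be a projective variety of dimension `d` over a number field `K`, given by homogeneous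
equations, `i ≤ 2 d`, let `α_{v,1}, …, α_{v,N}` be the eigenvalues of Frobenius on `H^i(X)` for the
primes `v ∉ S`, and let `F` be a continuation of polynomial growth of `L(H^i(X), s)` to
`Re s > (i + 1)/2 - η`, `η > 0`. Let `ρ` be a real number and `A > 0`.

The following are equivalent:
1. all zeros of `F` lie in `Re s ≤ c = (i + 1)/2`, `ρ = m` is an integer and
   `F(s)/(s - c)^m → A` for `s → c`;
2. the scaled deviation `D` has a bounded mean square;
3. `D` is almost periodic in the sense of Stepanov, with the expansion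
   `D(t) ∼ ∑_{γ ≠ 0} (-m(γ)/(iγ)) e^{iγt}` over the ordinates of the zeros of `F` on the central line,
   with their multiplicities;
4. `D` has the mean square `∑_{γ ≠ 0} m(γ)²/γ²` (a convergent series);
5. `D` has a limiting distribution `ν`, with convergence of the means of all continuous functions
   of at most quadratic growth.

In this case, for all real `τ` the Fourier-Bohr coefficient of `D` at `τ` is `-m(τ)/(iτ)` (for
`τ = 0` it is `0`), the square of the deviation is integrable, and its integral over `(T, ∞)` is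
`(V + o(1))/T` with `V = ∑_{γ ≠ 0} m(γ)²/γ²`. -/
theorem result (K : Type) [Field K] [NumberField K] (n : ℕ)
    (X : Set (MvPolynomial (Fin n) (𝓞 K))) (d i N : ℕ) (hi : i ≤ 2 * d)
    (S : Set (HeightOneSpectrum (𝓞 K))) (α : HeightOneSpectrum (𝓞 K) → Fin N → ℂ)
    (hα : ∀ v, v ∉ S → IsFrobenius X d i v (α v)) (η : ℝ) (F : ℂ → ℂ)
    (hF : IsContinuation S i α η F) (ρ A : ℝ) (hA : 0 < A) :
    List.TFAE [
      ZerosLeft i F ∧ ∃ m : ℕ, ρ = m ∧
        Tendsto (fun s : ℂ => F s / (s - centre i) ^ m) (𝓝[≠] (centre i : ℂ)) (𝓝 (A : ℂ)),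
      ∃ B : ℝ, ∀ᶠ T : ℝ in atTop, ∫ t in (1 : ℝ)..T, D S i α ρ A t ^ 2 ≤ B * T,
      ∀ ε : ℝ, 0 < ε → ∀ᶠ R : ℕ in atTop, ∀ᶠ T : ℝ in atTop,
        ∫ t in T..T + 1, ‖(D S i α ρ A t : ℂ) -
          ∑ᶠ (γ : ℝ) (_ : |γ| ≤ R), coeff i F γ * Complex.exp (Complex.I * γ * t)‖ ^ 2 ≤ ε,
      Summable (fun γ : ℝ => ((mult i F γ : ℝ) / γ) ^ 2) ∧
        Tendsto (fun T : ℝ => (∫ t in (1 : ℝ)..T, D S i α ρ A t ^ 2) / T) atTop
          (𝓝 (∑' γ : ℝ, ((mult i F γ : ℝ) / γ) ^ 2)),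
      ∃ ν : Measure ℝ, IsProbabilityMeasure ν ∧
        ∀ φ : ℝ → ℝ, Continuous φ → (∃ C : ℝ, ∀ x, |φ x| ≤ C * (1 + x ^ 2)) →
          Integrable φ ν ∧ Tendsto (fun T : ℝ => (∫ t in (1 : ℝ)..T, φ (D S i α ρ A t)) / T) atTop
            (𝓝 (∫ x, φ x ∂ν))] ∧
    ((∃ B : ℝ, ∀ᶠ T : ℝ in atTop, ∫ t in (1 : ℝ)..T, D S i α ρ A t ^ 2 ≤ B * T) →
      (∀ τ : ℝ, Tendsto (fun T : ℝ => (∫ t in (1 : ℝ)..T, (D S i α ρ A t : ℂ) *
        Complex.exp (-(Complex.I * τ * t))) / (T : ℂ)) atTop (𝓝 (coeff i F τ))) ∧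
      IntegrableOn (fun t : ℝ => dev S i α ρ A t ^ 2) (Ioi 1) ∧
      Tendsto (fun T : ℝ => T * ∫ t in Ioi T, dev S i α ρ A t ^ 2) atTop
        (𝓝 (∑' γ : ℝ, ((mult i F γ : ℝ) / γ) ^ 2))) := by
  obtain ⟨C, κ, hC⟩ := hF.growth
  have H := Q284.M.mc_of (P := fun v => v ∉ S) hi hα hF.pos hF.eq hF.diff hC
  have t := Pool.Agent.Q195.AP.mc_equiv H ρ hA
  have hz : ZerosLeft i F ↔ ∀ s : ℂ, 0 < s.re → F ((((i : ℝ) + 1) / 2 : ℝ) + s) ≠ 0 := by
    constructor
    · intro h s hs h0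
      have h1 := h _ h0
      rw [Complex.add_re, Complex.ofReal_re] at h1
      unfold centre at h1
      linarith
    · intro h s h0
      by_contra h1
      push Not at h1
      refine h (s - (((i : ℝ) + 1) / 2 : ℝ)) ?_ ?_
      · rw [Complex.sub_re, Complex.ofReal_re]
        unfold centre at h1
        linarith
      · rw [add_sub_cancel]
        exact h0
  have hc : (∃ m : ℕ, ρ = m ∧ Tendsto (fun s : ℂ => F ((((i : ℝ) + 1) / 2 : ℝ) + s) / s ^ m)
      (𝓝[≠] 0) (𝓝 (A : ℂ))) ↔ ∃ m : ℕ, ρ = m ∧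
        Tendsto (fun s : ℂ => F s / (s - centre i) ^ m) (𝓝[≠] (centre i : ℂ)) (𝓝 (A : ℂ)) :=
    exists_congr fun m => and_congr_right fun _ => Q284.M.lead_iff
  have hm : ∀ γ : ℝ, Pool.Agent.Q195.AP.mz (fun s => F ((((i : ℝ) + 1) / 2 : ℝ) + s)) γ =
      mult i F γ := by
    intro γ
    unfold Pool.Agent.Q195.AP.mz mult analyticOrderNatAt
    congr 1
    have h1 : AnalyticAt ℂ (fun s : ℂ => ((((i : ℝ) + 1) / 2 : ℝ) : ℂ) + s) (Complex.I * γ) :=
      analyticAt_const.add analyticAt_id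
    have h2 : deriv (fun s : ℂ => ((((i : ℝ) + 1) / 2 : ℝ) : ℂ) + s) (Complex.I * γ) ≠ 0 := by
      rw [((hasDerivAt_id' (Complex.I * (γ : ℂ))).const_add _).deriv]
      exact one_ne_zero
    exact analyticOrderAt_comp_of_deriv_ne_zero (f := F) h1 h2
  have hb : ∀ γ : ℝ, -Pool.Agent.Q195.AP.bz (fun s => F ((((i : ℝ) + 1) / 2 : ℝ) + s)) γ =
      coeff i F γ := by
    intro γ
    unfold Pool.Agent.Q195.AP.bz coeff
    rw [hm]
  have hdev : ∀ t, Pool.Agent.TH270.MS.DvR (Q284.M.NN fun v => v ∉ S) (Q284.M.al i α) ρ A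
      (Real.exp t) = dev S i α ρ A t := fun t => (dev_eq S i α ρ A t).symm
  have hD : ∀ t, Pool.Agent.Q195.AP.sd (Q284.M.NN fun v => v ∉ S) (Q284.M.al i α) ρ A t =
      D S i α ρ A t := by
    intro t
    unfold Pool.Agent.Q195.AP.sd D
    rw [hdev]
  rw [← hz, hc] at t
  simp only [hm, hb, hdev, hD] at t
  exact t

end Pool.Agent.Results.MP_6dc9d1_nt.CentralSpectrum
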