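import Mathlib
import Pool.Agent.Q274.DC.Fro
import Pool.Agent.Q274.DC.Fam
import Pool.Agent.Q274.DC.FField

/-!
# Beilinson's conjecture for diagonal cubic threefolds and fivefolds over number fields

Let `t = 0, 1, 2` and let `X : a_0 x_0³ + ⋯ + a_{2t+2} x_{2t+2}³ = 0` (positive integers `a_i`) be a diagonal
cubic hypersurface of dimension `2 t + 1 = 1, 3, 5` over `ℚ`. For a set `J` of `t` of the `2 t + 3`
coordinates let `d_J` be the cube-free part of `∏ a_i ∏_{i ∈ J} a_i` (one, five or twenty-one numbers) and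
`E_d : y² + d y = x³`, a cubic twist of the curve of conductor `27`.

(1) THE POINTS. For EVERY finite field `F` with `q` elements in which the `a_i` are not zero, `X` has
    `1 + q + ⋯ + q^(2t+1) + q^t ∑_J (#E_{d_J}(F) - (q + 1))` points over `F` (the cone has
    `1 + (q - 1)` times this number of points). For a prime `p` not dividing `3 ∏ a_i` there is a multiset
    `A` of `2`, `10`, `42` complex numbers such that `X` has `1 + p^r + ⋯ + p^(r(2t+1)) - ∑_{α ∈ A} α^r`
    points over the field with `p^r` elements, for all `r`: the eigenvalues of Frobenius on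
    `H^(2t+1)(X)`; and the Euler factor of `∏_J L(E_{d_J}, s - t)` at `p` is `∏_{α ∈ A} (1 - α p^(-s))⁻¹`.
    So `H^(2t+1)(X)` is the direct sum of the `H^1(E_{d_J})(-t)`, and the intermediate Jacobian of `X`, an
    abelian variety of dimension `1`, `5`, `21`, is isogenous to the product of the `E_{d_J}`. Its group of
    rational points and `CH^(t+1)(X)_0` have the same rank, over every number field (`t = 1`: Bloch and
    Srinivas; `t = 2`: Collino, Fu and Tian).

(2) ONE HYPERSURFACE. Let all the `d_J` be bases: cube-free, prime to `3`, not `±1` modulo `9`, with exactly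
    one prime divisor `2` modulo `3`. Then the complete `L`-function of `H^(2t+1)(X)` (all Euler
    factors) is entire; the Selmer group of `√-3` of `E_{d_J}` over `ℚ(√-3)` has order `3^(2 r_J + 1)`, the
    rank of `E_{d_J}(ℚ)` is at most `2 r_J`, and all `r_J` are zero if and only if all the `E_{d_J}(ℚ)` are
    finite with `Ш[3^∞] = 0`: then `X` is GOOD. For good `X` the conjecture holds for `X` over `ℚ`: the order
    of the `L`-function at the centre `s = t + 1` is the sum of the ranks, both sides are `0`.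
    NUMBER FIELDS. Let `l_1, …, l_k` be independent modulo cubes and let `F` be any number field
    generated by cube roots of the `l_j` and the cube roots of unity in `F`; `3^k` divides its
    degree. If all the cube-free parts of the `d_J ∏ l_j^{e_j}`, `e_j = 0, 1, 2`, are bases and good, the
    conjecture holds for `X` over `F`: the `L`-function (without the Euler factors of the `E_{d_J}` at the
    places dividing `6 d_J ∏ l_j`, which do not change the order) is entire, its order at the centre and
    the rank of the intermediate Jacobian over `F` are `0` (`k = 0`: over `ℚ` and `ℚ(√-3)`).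

(3) LAWS. A family consists of hypersurfaces whose coefficients are monomials
    `c_i d_1^{f_i1} ⋯ d_n^{f_in}` and of the fields generated by cube roots of monomials
    `l_j = b_j d_1^{g_j1} ⋯ d_n^{g_jn}`, `j = 1, …, k`; its twists are the `d_J ∏ l_j^{e_j}`.
    THERE IS ONE SET `S` of positive integers, of NATURAL DENSITY `1`, such that for ANY FINITE NUMBER of
    families (of dimensions `1`, `3`, `5`, any `k`) whose twists have constants that are bases and exponents
    that are not all zero, for every `ε > 0`, all large `D` in `S` and all classes `α` modulo `9` for which no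
    twist at `α` is `±1` modulo `9`: let `d = (d_1, …, d_n)` run through the tuples of divisors
    `d_i ≡ α_i` modulo `9` of the square of the product of the primes `1` modulo `3` dividing `D`. Let
    `M` be the number of the twists that occur (in all the families together), where twists that are equal or
    inverse to each other modulo cubes are counted once. Then
    * the vector of the numbers `r` of these `M` twists has the `M`-th power of the law
      `law r = c 3^r / ((3 - 1)² ⋯ (3^r - 1)²)`, `c = ∏ (1 - 3^{-i}) = 0.5601…`, up to `ε`, uniformly;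
    * the share of the `d` for which ALL the twists are good is `c ^ M` up to `ε`; for these
      `d` the conjecture holds for all the hypersurfaces over `ℚ` and over all the fields;
    * the mean of the rank over `ℚ` of the intermediate Jacobian of each of them is less than `0.92` times
      its dimension (`1`, `5`, `21`).
    For five independent coefficients of a threefold `M = 5` over `ℚ`, for the seven of a fivefold `M = 21`.

(4) ORDERED BY SIZE. For `m x_0³ + x_1³ + ⋯ + x_{2t+2}³ = 0` (that is
    `m x_0³ = x_1³ + ⋯ + x_{2t+2}³`) all the `d_J` are `m` or its inverse `m²` modulo cubes: for exactly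
    the proportion `c`, 56 percent, of the squarefree bases `m ≤ x`, `x → ∞`, the curve, the threefold
    and the fivefold are all good.

The laws of the twists are those of helper283 (`MP_696deb_nt.IndependenceOverDivisors`), also the theorem
for one curve over the fields (his project MC); the `L`-functions, the equality for good `d` and the
proportion of good squarefree bases are those of the starting files (projects CT and CX). The points and
the eigenvalues: helper153 (`ONE`), helper109 (`CHI`, `SUM`), helper68 (`AFF`, `CHJ`), helper150 (`CON`),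
helper26 (`PTS`, `STI`), helper149 (`LIF`), helper121 (`FRO`).
-/

set_option autoImplicit false

open scoped Classical

namespace Pool.Agent.Results.MP_6dc9d1_nt.DiagonalCubics

open Filter
open Pool.Agent.Q274.DC (twist factor IsLFunction IsSpectrum curvePoints solutions Related part GoodX special
  lfun_X lfun_unique count_X spectrum fro base_special proportion)
open Pool.Agent.Q274.DC.F
open Pool.Agent.Results.MP_696deb_nt.IndependenceOverDivisors (IsBase Good Sel rank law c count Split
  tuples form cubeFree)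

/-- the rank over `ℚ` of the intermediate Jacobian, the product of the curves `E_{d_J}` up to isogeny -/
noncomputable def rankJ {t : ℕ} (a : Fin (2 * t + 3) → ℕ) : ℕ :=
  ∑ J ∈ Finset.powersetCard t (Finset.univ : Finset (Fin (2 * t + 3))), rank (twist a J)

/-- the conjecture for `∑ a_i x_i³ = 0` over `ℚ`, with both sides equal to `0` -/
def Formula {t : ℕ} (a : Fin (2 * t + 3) → ℕ) : Prop :=
  ∃ L : ℂ → ℂ, IsLFunction a L ∧ analyticOrderAt L ((t : ℂ) + 1) = (rankJ a : ℕ∞) ∧ rankJ a = 0

section proof

variable (K : Type) [Field K] [NumberField K] [IsCyclotomicExtension {3} ℚ K]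

include K in
theorem rank_good {n : ℕ} (hn : IsBase n) (h : Good n) : rank n = 0 := by
  obtain ⟨r, -, h2, h3, -⟩ :=
    (Pool.Agent.Results.MP_696deb_nt.IndependenceOverDivisors.result K).1 n hn
  have := h3.2 h
  omega

include K in
theorem rankJ_good {t : ℕ} (a : Fin (2 * t + 3) → ℕ)
    (ha : ∀ J : Finset (Fin (2 * t + 3)), J.card = t → IsBase (twist a J)) (h : GoodX a) :
    rankJ a = 0 :=
  Finset.sum_eq_zero fun J hJ => rank_good K (ha J (Finset.mem_powersetCard.1 hJ).2)
    (h J (Finset.mem_powersetCard.1 hJ).2)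

include K in
theorem order_good {t : ℕ} (a : Fin (2 * t + 3) → ℕ)
    (ha : ∀ J : Finset (Fin (2 * t + 3)), J.card = t → IsBase (twist a J)) (h : GoodX a) {L : ℂ → ℂ}
    (hL : IsLFunction a L) : analyticOrderAt L ((t : ℂ) + 1) = (rankJ a : ℕ∞) ∧ rankJ a = 0 := by
  obtain ⟨L', h1, h2⟩ := lfun_X a ha
  have h3 : L = L' := lfun_unique hL h1
  have h4 := rankJ_good K a ha h
  refine ⟨?_, h4⟩
  rw [h4, h3, Nat.cast_zero]
  exact (h1.1.analyticAt _).analyticOrderAt_eq_zero.2 (h2 h)

include K in
theorem formula_good {t : ℕ} (a : Fin (2 * t + 3) → ℕ)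
    (ha : ∀ J : Finset (Fin (2 * t + 3)), J.card = t → IsBase (twist a J)) (h : GoodX a) :
    Formula a := by
  obtain ⟨L, h1, -⟩ := lfun_X a ha
  exact ⟨L, h1, order_good K a ha h h1⟩

theorem part_mono {n : ℕ} {a : Fin n → ℕ} {D : ℕ} {P Q : (Fin n → ℕ) → Prop}
    (h : ∀ d ∈ tuples a D, P d → Q d) : part a D P ≤ part a D Q := by
  unfold part
  refine div_le_div_of_nonneg_right ?_ (Nat.cast_nonneg _)
  rw [Nat.cast_le]
  refine Finset.card_le_card fun d hd => ?_
  rw [Finset.mem_filter] at hd ⊢
  exact ⟨hd.1, h d hd.1 hd.2⟩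

theorem part_congr {n : ℕ} {a : Fin n → ℕ} {D : ℕ} {P Q : (Fin n → ℕ) → Prop}
    (h : ∀ d ∈ tuples a D, (P d ↔ Q d)) : part a D P = part a D Q :=
  le_antisymm (part_mono fun d hd => (h d hd).1) (part_mono fun d hd => (h d hd).2)

theorem twistL_zero {n k : ℕ} (a : Fin n → ℕ) (l : Fin k → ℕ) (J : Finset (Fin n)) :
    twistL a l J 0 = twist a J := by
  unfold twistL twist
  simp

theorem goodX_of {t k : ℕ} {a : Fin (2 * t + 3) → ℕ} {l : Fin k → ℕ} (h : GoodF a l) : GoodX a :=
  fun J hJ => by
    have h1 := h J 0 hJ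
    rwa [twistL_zero] at h1

end proof

theorem result (K : Type) [Field K] [NumberField K] [IsCyclotomicExtension {3} ℚ K] :
    (∀ (t : ℕ), t ≤ 2 → ∀ a : Fin (2 * t + 3) → ℕ,
      (∀ (F : Type) [Field F] [Fintype F], (∀ i, (a i : F) ≠ 0) →
        solutions F a = 1 + ((Fintype.card F : ℤ) - 1) * (∑ i ∈ Finset.range (2 * t + 2),
          (Fintype.card F : ℤ) ^ i + (Fintype.card F : ℤ) ^ t *
            ∑ J ∈ Finset.powersetCard t (Finset.univ : Finset (Fin (2 * t + 3))),
              (curvePoints F (twist a J) - ((Fintype.card F : ℤ) + 1)))) ∧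
      ∀ (p : ℕ) [Fact p.Prime], ¬ p ∣ 3 * ∏ i, a i → ∃ A : Multiset ℂ,
        A.card = 2 * Nat.choose (2 * t + 3) t ∧ IsSpectrum a p A ∧ ∀ s : ℂ,
          ∏ J ∈ Finset.powersetCard t (Finset.univ : Finset (Fin (2 * t + 3))),
            factor (twist a J) p (s - t) = (A.map fun α => (1 - α * (p : ℂ) ^ (-s))⁻¹).prod) ∧
    (∀ (t : ℕ), t ≤ 2 → ∀ (a : Fin (2 * t + 3) → ℕ),
      (∀ J : Finset (Fin (2 * t + 3)), J.card = t → IsBase (twist a J)) →
      (∃! L : ℂ → ℂ, IsLFunction a L) ∧
      (∀ J : Finset (Fin (2 * t + 3)), J.card = t → ∃ r : ℕ, (Sel K (twist a J)).ncard = 3 ^ (2 * r + 1) ∧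
        rank (twist a J) ≤ 2 * r ∧ (r = 0 ↔ Good (twist a J))) ∧
      (GoodX a → Formula a)) ∧
    (∀ (t : ℕ), t ≤ 2 → ∀ (k : ℕ) (a : Fin (2 * t + 3) → ℕ) (l : Fin k → ℕ), (∀ i, a i ≠ 0) →
      (∀ (J : Finset (Fin (2 * t + 3))) (e : Fin k → ZMod 3), J.card = t → IsBase (twistL a l J e)) →
      GoodF a l → Independent l → ∀ (F : Type) [Field F] [NumberField F], IsRadical l F →
        3 ^ k ∣ Module.finrank ℚ F ∧ FormulaOver a l F) ∧
    (∃ S : ℕ → Prop, Tendsto (fun x : ℕ => (count S x : ℝ) / x) atTop (nhds 1) ∧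
      ∀ (m n M : ℕ) (X : Fin m → Family n) (ρ : Fin M → Twists X), (∀ i j, (X i).c j ≠ 0) →
      (∀ i j, (X i).b j ≠ 0) → (∀ p, IsBase (bas X p)) → (∀ p, exf X p ≠ 0) → Represents X ρ →
      ∀ ε : ℝ, 0 < ε → ∃ D₀ : ℕ, ∀ D : ℕ, D₀ ≤ D → S D → ∀ α : Fin n → ℕ,
        (∀ p : Twists X, bas X p * form (exf X p) α % 9 ≠ 1 ∧ bas X p * form (exf X p) α % 9 ≠ 8) →
        (tuples α D).Nonempty →
        (∀ d ∈ tuples α D, ∀ (i : Fin m) (J : Finset (Fin (2 * (X i).t + 3))) (e : Fin (X i).k → ZMod 3),
          J.card = (X i).t → IsBase (twistL ((X i).coeff d) ((X i).rad d) J e)) ∧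
        (∀ T : Set (Fin M → ℕ), |part α D (fun d => ∃ r ∈ T, ∀ (p : Twists X) (j : Fin M),
            Related (bas X p) (exf X p) (bas X (ρ j)) (exf X (ρ j)) →
              (Sel K (val X d p)).ncard = 3 ^ (2 * r j + 1)) - ∑' r : T, ∏ j, law (r.1 j)| ≤ ε) ∧
        |part α D (fun d => ∀ i, GoodF ((X i).coeff d) ((X i).rad d)) - c ^ M| ≤ ε ∧
        c ^ M - ε ≤ part α D (fun d => ∀ i, Formula ((X i).coeff d) ∧ (Independent ((X i).rad d) →
          ∀ (F : Type) [Field F] [NumberField F], IsRadical ((X i).rad d) F →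
            FormulaOver ((X i).coeff d) ((X i).rad d) F)) ∧
        ∀ i, (∑ d ∈ tuples α D, (rankJ ((X i).coeff d) : ℝ)) / (tuples α D).card <
          0.92 * (Nat.choose (2 * (X i).t + 3) (X i).t)) ∧
    (∀ (n D : ℕ), (tuples (fun _ : Fin n => 1) D).Nonempty) ∧
    (∀ m : ℕ, IsBase m → ∀ (t : ℕ) (J : Finset (Fin (2 * t + 3))), J.card = t →
      IsBase (twist (special t m) J)) ∧
    Tendsto (fun x : ℕ => (((Finset.Icc 1 x).filter fun m => Squarefree m ∧ IsBase m ∧
        ∀ t ≤ 2, GoodX (special t m)).card : ℝ) /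
      ((Finset.Icc 1 x).filter fun m => Squarefree m ∧ IsBase m).card) atTop (nhds c) ∧
    HasSum law 1 ∧ 0.56 < c ∧ c < 0.5602 := by
  obtain ⟨S, hS1, -, hS⟩ := law_X K
  refine ⟨fun t ht a => ⟨fun F _ _ ha => count_X F ht a ha, fun p _ hp => spectrum fro ht a hp⟩,
    fun t _ a ha => ⟨?_, fun J hJ => ?_, fun h => formula_good K a ha h⟩, ?_, ⟨S, hS1, ?_⟩,
    fun n D => ?_, fun m hm t J _ => base_special t hm J, proportion K, ?_⟩
  · obtain ⟨L, h1, -⟩ := lfun_X a ha
    exact ⟨L, h1, fun L' h' => lfun_unique h' h1⟩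
  · obtain ⟨r, h1, h2, h3, -⟩ :=
      (Pool.Agent.Results.MP_696deb_nt.IndependenceOverDivisors.result K).1 _ (ha J hJ)
    exact ⟨r, h1, h2, h3⟩
  · intro t _ k a l ha hB hG hI F _ _ hF
    have hl : ∀ j, l j ≠ 0 := Q283.MC.Ind.ne_zero hI
    refine ⟨?_, over_good ha hl hB hG hI hF⟩
    obtain ⟨θ, hθ, -⟩ := hF
    exact Q283.MC.deg_dvd hθ hI
  · intro m n M X ρ hc hb hB hE hR ε hε
    obtain ⟨D₀, h⟩ := hS m n M X ρ hc hb hB hE hR ε hε
    refine ⟨D₀, fun D hD hSD α hα hne => ?_⟩
    obtain ⟨h1, h2, h3⟩ := h D hD hSD α hα hne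
    have hbase : ∀ d ∈ tuples α D, ∀ (i : Fin m) (J : Finset (Fin (2 * (X i).t + 3)))
        (e : Fin (X i).k → ZMod 3), J.card = (X i).t →
          IsBase (twistL ((X i).coeff d) ((X i).rad d) J e) := fun d hd i J e hJ =>
      val_base X hc hb hB hα hd ⟨⟨i, J, e⟩, hJ⟩
    have hbase' : ∀ d ∈ tuples α D, ∀ (i : Fin m) (J : Finset (Fin (2 * (X i).t + 3))),
        J.card = (X i).t → IsBase (twist ((X i).coeff d) J) := fun d hd i J hJ => by
      have h4 := hbase d hd i J 0 hJ
      rwa [twistL_zero] at h4
    have hG : part α D (fun d => ∀ i, GoodF ((X i).coeff d) ((X i).rad d)) =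
        part α D (fun d => ∀ p : Twists X, Good (val X d p)) :=
      part_congr fun d _ => ⟨fun h p => h p.1.1 p.1.2.1 p.1.2.2 p.2,
        fun h i J e hJ => h ⟨⟨i, J, e⟩, hJ⟩⟩
    refine ⟨hbase, h1, by rw [hG]; exact h2, ?_, fun i => ?_⟩
    · have h4 : part α D (fun d => ∀ i, GoodF ((X i).coeff d) ((X i).rad d)) ≤
          part α D (fun d => ∀ i, Formula ((X i).coeff d) ∧ (Independent ((X i).rad d) →
            ∀ (F : Type) [Field F] [NumberField F], IsRadical ((X i).rad d) F →
              FormulaOver ((X i).coeff d) ((X i).rad d) F)) := by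
        refine part_mono fun d hd h i => ⟨formula_good K _ (hbase' d hd i) (goodX_of (h i)),
          fun hI F _ _ hF => ?_⟩
        have hd0 := Pool.Agent.Q274.DC.tuple_ne hd
        exact over_good (fun j => mul_ne_zero (hc i j) (Pool.Agent.Q274.DC.form_ne _ hd0))
          (fun j => mul_ne_zero (hb i j) (Pool.Agent.Q274.DC.form_ne _ hd0)) (hbase d hd i) (h i) hI hF
      rw [hG] at h4
      have h5 := (abs_le.1 h2).1
      linarith
    · have h4 : (∑ d ∈ tuples α D, (rankJ ((X i).coeff d) : ℝ)) / (tuples α D).card =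
          ∑ J ∈ Finset.powersetCard (X i).t (Finset.univ : Finset (Fin (2 * (X i).t + 3))),
            (∑ d ∈ tuples α D, (rank (twist ((X i).coeff d) J) : ℝ)) / (tuples α D).card := by
        rw [← Finset.sum_div, Finset.sum_comm]
        congr 1
        refine Finset.sum_congr rfl fun d _ => ?_
        unfold rankJ
        push_cast
        rfl
      rw [h4]
      have h5 : (Finset.powersetCard (X i).t (Finset.univ : Finset (Fin (2 * (X i).t + 3)))).Nonempty := by
        rw [Finset.powersetCard_nonempty, Finset.card_univ, Fintype.card_fin]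
        omega
      have h6 : ∀ J ∈ Finset.powersetCard (X i).t (Finset.univ : Finset (Fin (2 * (X i).t + 3))),
          (∑ d ∈ tuples α D, (rank (twist ((X i).coeff d) J) : ℝ)) / (tuples α D).card < 0.92 := by
        intro J hJ
        have h7 := h3 ⟨⟨i, J, 0⟩, (Finset.mem_powersetCard.1 hJ).2⟩
        refine lt_of_eq_of_lt ?_ h7
        congr 1
        refine Finset.sum_congr rfl fun d _ => ?_
        have h8 : val X d ⟨⟨i, J, 0⟩, (Finset.mem_powersetCard.1 hJ).2⟩ = twist ((X i).coeff d) J :=
          twistL_zero _ _ _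
        rw [h8]
      refine (Finset.sum_lt_sum_of_nonempty h5 (g := fun _ => (0.92 : ℝ)) h6).trans_eq ?_
      rw [Finset.sum_const, Finset.card_powersetCard, Finset.card_univ, Fintype.card_fin, nsmul_eq_mul,
        mul_comm]
  · exact ((Pool.Agent.Results.MP_696deb_nt.IndependenceOverDivisors.result K).2.2.2.1 n
      (fun _ => 1) D).1
  · exact (Pool.Agent.Results.MP_696deb_nt.IndependenceOverDivisors.result K).2.2.2.2.2.2.2

end Pool.Agent.Results.MP_6dc9d1_nt.DiagonalCubics
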