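import Pool.Agent.Q282.MJ.Rank

/-!
# Beilinson's conjecture for products of curves: the central L-functions of the constituents are independent Brownian motions

Let `K` be a number field with the ring of integers `𝓞`, and let `C_1, ..., C_n` be the curves of genus `g_j ≥ 1`
`C_j : y ^ 2 = f_j(x) = (x - a_1) ⋯ (x - a_{r_j}) h(x) + l(x) ^ 2`,
with monic `h` of degree `2 g_j + 1 - r_j` and `l` of degree `< r_j` over `𝓞`, `0 ≤ r_j ≤ g_j`: these are the curves `y ^ 2 = f(x)`,
`f` monic of degree `2 g_j + 1`, with `r_j` marked points `(a_i, l(a_i))` in general position. Let `X = C_1 × ⋯ × C_n`; for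
`n = 2 i + 1` the cohomology group of Beilinson's conjecture is `H^(2i+1)(X)`, with the central point `s = i + 1`. By the formula of
Künneth the groups `H^(2m-1)(X)` are sums of twists of the representations `V_S = ⊗_{j ∈ S} H^1(C_j)`, `S` a set of an odd number of
indices, and `L(H^(2m-1)(X), s)` at `s = m` is the product of the `L(V_S, s)` at their centres `s = (|S| + 1) / 2`.

Let `P_S(Y)` be the product of the `det (1 - Frob_v (N v) ^ (-(|S| + 1) / 2) | V_S)` over the good primes `v` of norm at most `Y`,
and let the coordinates of the parameters (the `a_i`, the coefficients of the `h` and `l`) in a `ℤ`-basis of `𝓞` be taken at random in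
any box with sides at least `X ^ 5`. It is proved that for `X → ∞` the `2 ^ (n - 1)` processes
`s ↦ (log P_S(exp ((log X) ^ s)) - κ_S s log log X) / sqrt (log log X)`, `0 < s ≤ 1`,
`κ_S = r_j + 1 / 2` for `S = {j}` and `κ_S = 1 / 2` for `|S| ≥ 3`, converge jointly to independent Brownian motions, uniformly in the
basis and the box, while the Jacobians of all `C_j` have rank at least `r_j` over `K`. So the constituents behave at their centres
like independent symplectic L-functions, and only the `H^1(C_j)` see the marked points. For the group `H^(2m-1)(X)` itself the limit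
is one Brownian motion, with the exponent `κ_m = binom (n - 1) (m - 1) (r_1 + ⋯ + r_n) + b / 2`, `b` the number of the constituents,
the first term being the number of the homologically trivial cycles `(P - ∞) × points` that the marked points define, and with the
variance `∑_S mult(S) ^ 2` times `log log X`.

Proof. The logarithms of the factors are functions of the residues modulo `v`. Let `T_k` be the trace of `Frob_v ^ k`. The first
moments over the residue field follow from those of `T_1` and `T_2` for one curve. For the second moments the products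
`∏_{j ∈ S} T_1(C_j)` for different `S` are orthogonal, since the curves are independent and the mean of `T_1(C_j)` is `O(1)`, while
its mean square is `N v + O(1)`. The joint law over the primes: characteristic functions are compared with those of independent
variables by a Taylor polynomial of large degree, the chinese remainder theorem and exponential moments; the limit is a Gaussian law
with a product covariance, and the theorem of Lévy is in Mathlib. The rank: a sieve for every factor.
-/

set_option autoImplicit false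

namespace Pool.Agent.Results.MP_6dc9d1_nt.IndependentBrownianMotions

open Finset NumberField Polynomial
open Q282.JK Q282.PX Q282.MJ
open scoped NNReal

/-- The sets of an odd number of indices `0, ..., n - 1`. -/
abbrev OddSet (n : ℕ) : Type := {S : Finset (Fin n) // Odd S.card}

/-- `κ_S = r_j + 1 / 2` for `S = {j}`, and `κ_S = 1 / 2` if `S` has more than one element. -/
noncomputable def exponentS {n : ℕ} (r : Fin n → ℕ) (S : Finset (Fin n)) : ℝ :=
  (if S.card = 1 then ∑ j ∈ S, (r j : ℝ) else 0) + 1 / 2

/-- `κ_m = binom (n - 1) (m - 1) (r_1 + ... + r_n) + b / 2`, where `b` is the number of the constituents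
`H^(c_1)(C_1) ⊗ ... ⊗ H^(c_n)(C_n)`, `c_1 + ... + c_n = 2 m - 1`, of `H^(2m-1)(C_1 × ... × C_n)`. -/
noncomputable def exponent {n : ℕ} (r : Fin n → ℕ) (m : ℕ) : ℝ :=
  (n - 1).choose (m - 1) * ∑ j, (r j : ℝ) + (types n (2 * m - 1)).card / 2

/-- `σ_m`: the square root of the sum of the squares of the multiplicities of the `⊗_{j ∈ S} H^1(C_j)` in
`H^(2m-1)(C_1 × ... × C_n)`. -/
noncomputable def deviation (n m : ℕ) : ℝ := Real.sqrt (∑ S : OddSet n, (mult n m S.1 : ℝ) ^ 2)

/-- The integer part of `exp ((log X) ^ s)`. -/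
noncomputable def time (X : ℕ) (s : ℝ) : ℕ := ⌊Real.exp (Real.log X ^ s)⌋₊

/-- `(log P_S(exp ((log X) ^ s)) - κ_S s log log X) / sqrt (log log X)`. -/
noncomputable def processS {K : Type} [Field K] [NumberField K] {n : ℕ} (r : Fin n → ℕ) (f : Fin n → (𝓞 K)[X]) (S : OddSet n)
    (X : ℕ) (s : ℝ) : ℝ :=
  (Real.log (productS f S.1 (time X s)) - exponentS r S.1 * s * Real.log (Real.log X)) / Real.sqrt (Real.log (Real.log X))

/-- `(log P_m(exp ((log X) ^ s)) - κ_m s log log X) / (σ_m sqrt (log log X))`, where `P_m(Y)` is the product of the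
`det (1 - Frob_v (N v) ^ (-m) | H^(2m-1)(C_1 × ... × C_n))` over the primes `v` with `GoodP f v` and `N v ≤ Y`. -/
noncomputable def process {K : Type} [Field K] [NumberField K] {n : ℕ} (r : Fin n → ℕ) (f : Fin n → (𝓞 K)[X]) (m : ℕ)
    (X : ℕ) (s : ℝ) : ℝ :=
  (Real.log (productP f m (time X s)) - exponent r m * s * Real.log (Real.log X)) / (deviation n m * Real.sqrt (Real.log (Real.log X)))

/-- The distribution function of the Brownian motion `B` at the times `s ∈ I`: the probability that `B_s ≤ x_s` for all `s ∈ I`. -/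
noncomputable def brownian (I : Finset ℝ≥0) (x : I → ℝ) : ℝ :=
  (ProbabilityTheory.BrownianReal.projectiveFamily I (Set.Iic x)).toReal

/-- The box of the integers `n k` with `N k ≤ n k < N k + L k` for all `k`. -/
noncomputable def box {κ : Type} [Fintype κ] [DecidableEq κ] (N : κ → ℤ) (L : κ → ℕ) : Finset (κ → ℤ) :=
  Fintype.piFinset fun k => Ico (N k) (N k + L k)

/-- The elements `t i = ∑ n (i, j) b j` with the coordinates `n (i, j)`. -/
def combine {O : Type} [CommRing O] {ι : Type} {d : ℕ} (b : Fin d → O) (n : ι × Fin d → ℤ) : ι → O :=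
  fun i => ∑ j, (n (i, j) : O) * b j

open Classical in
/-- The proportion of the `n` of the box with the property `P`. -/
noncomputable def proportion {κ : Type} [Fintype κ] [DecidableEq κ] (N : κ → ℤ) (L : κ → ℕ) (P : (κ → ℤ) → Prop) : ℝ :=
  (((box N L).filter P).card : ℝ) / ∏ k, (L k : ℝ)

/-- Every `f j` is irreducible over `K`, and the group of the `K`-rational points of the Jacobian of the curve
`C_j : y ^ 2 = f_j(x)`, which is the class group of its affine coordinate ring over `K`, has rank at least `r j`. -/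
def Ranks (K : Type) [Field K] [NumberField K] {n : ℕ} (r : Fin n → ℕ) (f : Fin n → (𝓞 K)[X]) : Prop :=
  ∀ j, Irreducible ((f j).map (algebraMap (𝓞 K) K)) ∧ HasClassRank (CoordRing ((f j).map (algebraMap (𝓞 K) K))) (r j)

/-! ### Proofs -/

lemma proportion_eq {κ : Type} [Fintype κ] [DecidableEq κ] (N : κ → ℤ) (L : κ → ℕ) (P : (κ → ℤ) → Prop) [DecidablePred P] :
    proportion N L P = (((box N L).filter P).card : ℝ) / ∏ k, (L k : ℝ) := by
  classical
  unfold proportion
  congr 2
  refine congrArg Finset.card ?_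
  ext t
  simp only [mem_filter]

lemma basis_span {K : Type} [Field K] [NumberField K] (b : Module.Basis (Fin (Module.finrank ℚ K)) ℤ (𝓞 K)) :
    ∀ x : 𝓞 K, ∃ a : Fin (Module.finrank ℚ K) → ℤ, x = ∑ j, (a j : 𝓞 K) * b j := by
  intro x
  refine ⟨fun j => b.repr x j, ?_⟩
  have h1 := b.sum_repr x
  rw [← h1]
  refine sum_congr rfl fun j _ => ?_
  rw [h1, zsmul_eq_mul]

/-- intersection with the rank condition -/
lemma with_rank {κ : Type} [Fintype κ] [DecidableEq κ] (N : κ → ℤ) (L : κ → ℕ) (hL : 0 < ∏ k, (L k : ℝ)) (P R : (κ → ℤ) → Prop) (w ε : ℝ)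
    (h1 : |proportion N L P - w| ≤ ε / 2) (h2 : proportion N L (fun n => ¬ R n) ≤ ε / 2) :
    |proportion N L (fun n => R n ∧ P n) - w| ≤ ε := by
  classical
  have h6 : proportion N L (fun n => R n ∧ P n) ≤ proportion N L P := by
    rw [proportion_eq, proportion_eq]
    refine div_le_div_of_nonneg_right ?_ hL.le
    have : (box N L).filter (fun n => R n ∧ P n) ⊆ (box N L).filter P := by
      intro t ht
      rw [mem_filter] at ht ⊢
      exact ⟨ht.1, ht.2.2⟩
    exact_mod_cast card_le_card this
  have h7 : proportion N L P ≤ proportion N L (fun n => R n ∧ P n) + proportion N L (fun n => ¬ R n) := by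
    rw [proportion_eq, proportion_eq, proportion_eq, ← add_div]
    refine div_le_div_of_nonneg_right ?_ hL.le
    have : (box N L).filter P ⊆ (box N L).filter (fun n => R n ∧ P n) ∪ (box N L).filter (fun n => ¬ R n) := by
      intro t ht
      rw [mem_filter] at ht
      rw [mem_union, mem_filter, mem_filter]
      by_cases hR : R t
      · exact Or.inl ⟨ht.1, hR, ht.2⟩
      · exact Or.inr ⟨ht.1, hR⟩
    exact_mod_cast (card_le_card this).trans (card_union_le _ _)
  have h10 := abs_le.1 h1
  rw [abs_le]
  constructor <;> linarith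

open Classical in
/-- Let `K` be a number field, `n ≥ 0`, `g_j ≥ 1` and `0 ≤ r_j ≤ g_j` for `j = 1, ..., n`, and consider the polynomials
`f_j = fj t j = (x - a_1) ⋯ (x - a_{r_j}) h(x) + l(x) ^ 2` of degree `2 g_j + 1` over the ring of integers of `K`, whose coefficients
are the parameters `t` with the index `j`, and the curves `C_j : y ^ 2 = f_j(x)`.

(1) Let `I` be a finite set of times `s` with `0 < s ≤ 1`, let `x_{S, s}` be real numbers for the sets `S` of an odd number of indices
and `s ∈ I`, and `ε > 0`. There is an `X₁` with the following property. Let `X ≥ X₁`, let `b` be a basis of the ring of integers over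
`ℤ` and let a box of coordinates be given all sides of which are at least `X ^ 5`. Then the proportion of the `ν` of the box for which,
with the parameters `t = combine b ν`, all `f_j` are irreducible over `K`, the rank of the Jacobian of every `C_j` over `K` is at
least `r_j`, and `(log P_S(exp ((log X) ^ s)) - κ_S s log log X) / sqrt (log log X) ≤ x_{S, s}` for all `S` and `s`, differs by at most
`ε` from the product over `S` of the probabilities that the Brownian motion satisfies `B_s ≤ x_{S, s}` for all `s ∈ I`. Here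
`P_S(Y)` is the product of the values at the centre `(|S| + 1) / 2` of the reciprocals of the Euler factors of
`L(⊗_{j ∈ S} H^1(C_j), s)` at the primes `v` with `GoodP f v` and `N v ≤ Y`.

(2) The formula of Künneth: `log P_m(X) = ∑_S mult(S) log P_S(X)` for the product `P_m(X)` of the
`det (1 - Frob_v (N v) ^ (-m) | H^(2m-1)(C_1 × ... × C_n))` over the primes `v` with `GoodP f v` and `N v ≤ X`, where `mult(S)` is
the multiplicity of `⊗_{j ∈ S} H^1(C_j)` in `H^(2m-1)(C_1 × ... × C_n)`, for all `m ≥ 1` and `X`.

(3) For `1 ≤ m ≤ n` the process `(log P_m(exp ((log X) ^ s)) - κ_m s log log X) / (σ_m sqrt (log log X))` converges to one Brownian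
motion in the same sense, with `σ_m ^ 2 = ∑_S mult(S) ^ 2 > 0`. For `n = 2 i + 1`, `m = i + 1` this is the group `H^(2i+1)` of a
variety of dimension `2 i + 1`. -/
theorem result (K : Type) [Field K] [NumberField K] (n : ℕ) (g r : Fin n → ℕ) (hg : ∀ j, 1 ≤ g j) (hr : ∀ j, r j ≤ g j) :
    (∀ (I : Finset ℝ≥0), (∀ s ∈ I, 0 < s ∧ s ≤ 1) → ∀ (x : OddSet n → I → ℝ) (ε : ℝ), 0 < ε →
      ∃ X₁ : ℕ, ∀ X : ℕ, X₁ ≤ X → ∀ (b : Module.Basis (Fin (Module.finrank ℚ K)) ℤ (𝓞 K))
        (N : Ix g r × Fin (Module.finrank ℚ K) → ℤ) (L : Ix g r × Fin (Module.finrank ℚ K) → ℕ), (∀ k, X ^ 5 ≤ L k) →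
        |proportion N L (fun ν => Ranks K r (fj (combine b ν)) ∧
          ∀ (S : OddSet n) (s : I), processS r (fj (combine b ν)) S X (s : ℝ≥0) ≤ x S s) - ∏ S, brownian I (x S)| ≤ ε) ∧
    (∀ (t : Ix g r → 𝓞 K) (m : ℕ), 1 ≤ m → ∀ X : ℕ,
      Real.log (productP (fj t) m X) = ∑ S : OddSet n, mult n m S.1 * Real.log (productS (fj t) S.1 X)) ∧
    (∀ m : ℕ, 1 ≤ m → m ≤ n → 0 < deviation n m ∧
      ∀ (I : Finset ℝ≥0), (∀ s ∈ I, 0 < s ∧ s ≤ 1) → ∀ (x : I → ℝ) (ε : ℝ), 0 < ε →
      ∃ X₁ : ℕ, ∀ X : ℕ, X₁ ≤ X → ∀ (b : Module.Basis (Fin (Module.finrank ℚ K)) ℤ (𝓞 K))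
        (N : Ix g r × Fin (Module.finrank ℚ K) → ℤ) (L : Ix g r × Fin (Module.finrank ℚ K) → ℕ), (∀ k, X ^ 5 ≤ L k) →
        |proportion N L (fun ν => Ranks K r (fj (combine b ν)) ∧
          ∀ s : I, process r (fj (combine b ν)) m X (s : ℝ≥0) ≤ x s) - brownian I x| ≤ ε) := by
  -- the rank condition
  have hrank : ∀ ε : ℝ, 0 < ε → ∃ X₁ : ℕ, ∀ X : ℕ, X₁ ≤ X → ∀ (b : Module.Basis (Fin (Module.finrank ℚ K)) ℤ (𝓞 K))
      (N : Ix g r × Fin (Module.finrank ℚ K) → ℤ) (L : Ix g r × Fin (Module.finrank ℚ K) → ℕ), (∀ k, (X : ℝ) ≤ L k) →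
      proportion N L (fun ν => ¬ Ranks K r (fj (combine b ν))) ≤ ε := by
    intro ε hε
    obtain ⟨X₁, h⟩ := rank_all K n g r hg hr ε hε
    refine ⟨X₁, fun X hX b N L hL => ?_⟩
    rw [proportion_eq]
    exact h X hX (fun j => b j) (basis_span b) N L hL ((box N L).filter fun ν => ¬ Ranks K r (fj (combine b ν))) (filter_subset _ _)
      (fun ν hν hOk => (mem_filter.1 hν).2 fun j => ⟨(hOk j).1, (hOk j).2⟩)
  have hXL : ∀ X : ℕ, 16 ≤ X → ∀ l : ℕ, X ^ 5 ≤ l → (X : ℝ) ^ 5 ≤ l ∧ (X : ℝ) ≤ l := by
    intro X hX l hl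
    have hX0 : (16 : ℝ) ≤ X := by exact_mod_cast hX
    have h1 : (X : ℝ) ^ 5 ≤ l := by exact_mod_cast hl
    refine ⟨h1, le_trans ?_ h1⟩
    calc (X : ℝ) = (X : ℝ) ^ 1 := (pow_one _).symm
      _ ≤ _ := pow_le_pow_right₀ (by linarith) (by norm_num)
  refine ⟨?_, ?_, ?_⟩
  · intro I hI x ε hε
    obtain ⟨B, hB, hl1, hl2⟩ := loc_S K n g r hg hr
    obtain ⟨X₁, h⟩ := joint_nf K (Ix g r) (OddSet n) 3 (fun S => exponentS r S.1) B hB.le I hI (fun a => x a.1 a.2) (ε / 2) (by positivity)
    obtain ⟨X₂, h2⟩ := hrank (ε / 2) (by positivity)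
    refine ⟨max 16 (max X₁ X₂), fun X hX b N L hL => ?_⟩
    have hX16 : 16 ≤ X := (le_max_left _ _).trans hX
    have hX1 : X₁ ≤ X := (le_max_left _ _).trans ((le_max_right _ _).trans hX)
    have hX2 : X₂ ≤ X := (le_max_right _ _).trans ((le_max_right _ _).trans hX)
    have hX0 : (16 : ℝ) ≤ X := by exact_mod_cast hX16
    have hP0 : 0 < ∏ k, (L k : ℝ) := prod_pos fun k _ => by linarith [(hXL X hX16 _ (hL k)).2]
    have hne : ∀ S : OddSet n, S.1.Nonempty := fun S => card_pos.1 S.2.pos
    refine with_rank N L hP0 _ _ _ ε ?_ (h2 X hX2 b N L fun k => (hXL X hX16 _ (hL k)).2)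
    rw [proportion_eq]
    exact h X hX1 (fun j => b j) (basis_span b) N L (fun k => (hXL X hX16 _ (hL k)).1) (fun S v t => valC {cS S.1} (fj t) v)
      (fun S => hl1 S.1 (hne S)) (fun S S' hSS => hl2 S.1 S'.1 (hne S) (hne S') fun h => hSS (Subtype.ext h))
      ((box N L).filter fun ν => ∀ (S : OddSet n) (s : I), processS r (fj (combine b ν)) S X (s : ℝ≥0) ≤ x S s) (fun ν => by
        rw [mem_filter]
        refine and_congr Iff.rfl ?_
        rw [Prod.forall]
        refine forall_congr' fun S => forall_congr' fun s => ?_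
        have h3 := (log_productS (fj (combine b ν)) S.1 S.2 (time X (s : ℝ≥0))).2
        unfold processS
        rw [h3]
        rfl)
  · intro t m hm X
    rw [log_kunneth (fj t) g (fj_monic hr t) (fj_natDegree hr t) m hm X]
    exact sum_subtype (s := (univ : Finset (Finset (Fin n))).filter (fun S => Odd S.card)) (p := fun S => Odd S.card) (fun S => by simp)
      (fun S : Finset (Fin n) => (mult n m S : ℝ) * Real.log (productS (fj t) S X))
  · intro m hm hmn
    have hσ : deviation n m = Real.sqrt (sig (types n (2 * m - 1))) := by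
      unfold deviation
      rw [sig_types hm]
      push_cast
      rfl
    have hpos := sig_pos m hm hmn
    refine ⟨by rw [hσ]; exact Real.sqrt_pos.2 (by exact_mod_cast hpos), ?_⟩
    intro I hI x ε hε
    obtain ⟨B, hB, hloc⟩ := loc_C K n (types n (2 * m - 1)) (fun c hc => types_ne hm hc) g r hg hr hpos
    rw [← hσ] at hloc
    obtain ⟨X₁, h⟩ := Q282.JB.brown_nf K (Ix g r) 3 ((kap (types n (2 * m - 1)) (fun j => (r j : ℝ)) + (types n (2 * m - 1)).card / 2) / deviation n m)
      B hB.le I hI x (ε / 2) (by positivity)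
    obtain ⟨X₂, h2⟩ := hrank (ε / 2) (by positivity)
    refine ⟨max 16 (max X₁ X₂), fun X hX b N L hL => ?_⟩
    have hX16 : 16 ≤ X := (le_max_left _ _).trans hX
    have hX1 : X₁ ≤ X := (le_max_left _ _).trans ((le_max_right _ _).trans hX)
    have hX2 : X₂ ≤ X := (le_max_right _ _).trans ((le_max_right _ _).trans hX)
    have hX0 : (16 : ℝ) ≤ X := by exact_mod_cast hX16
    have hP0 : 0 < ∏ k, (L k : ℝ) := prod_pos fun k _ => by linarith [(hXL X hX16 _ (hL k)).2]
    refine with_rank N L hP0 _ _ _ ε ?_ (h2 X hX2 b N L fun k => (hXL X hX16 _ (hL k)).2)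
    rw [proportion_eq]
    exact h X hX1 (fun j => b j) (basis_span b) N L (fun k => (hXL X hX16 _ (hL k)).1)
      (fun v t => valC (types n (2 * m - 1)) (fj t) v / deviation n m) hloc
      ((box N L).filter fun ν => ∀ s : I, process r (fj (combine b ν)) m X (s : ℝ≥0) ≤ x s) (fun ν => by
        rw [mem_filter]
        refine and_congr Iff.rfl (forall_congr' fun s => ?_)
        have h3 := (log_productP (fj (combine b ν)) m (time X (s : ℝ≥0))).2
        have h4 : exponent r m = kap (types n (2 * m - 1)) (fun j => (r j : ℝ)) + (types n (2 * m - 1)).card / 2 := by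
          rw [kap_eq m hm]
          rfl
        have h5 : process r (fj (combine b ν)) m X (s : ℝ≥0) = (∑ v ∈ Q282.GK.SX K (Q282.CL.tm X (s : ℝ≥0)),
            valC (types n (2 * m - 1)) (fj (Q282.GK.comb (fun j => b j) ν)) v / deviation n m -
            (kap (types n (2 * m - 1)) (fun j => (r j : ℝ)) + (types n (2 * m - 1)).card / 2) / deviation n m * ((s : ℝ≥0) : ℝ) *
              Real.log (Real.log X)) / Real.sqrt (Real.log (Real.log X)) := by
          unfold process
          rw [h3, h4, ← sum_div, sum_congr rfl fun v _ => valP_C (fj (combine b ν)) m hm v]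
          have e1 : ∀ a k s l d t : ℝ, (a - k * s * l) / (d * t) = (a / d - k / d * s * l) / t := by
            intro a k s l d t
            rw [← div_div, sub_div]
            ring
          exact e1 _ _ _ _ _ _
        rw [h5])

end Pool.Agent.Results.MP_6dc9d1_nt.IndependentBrownianMotions
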