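import Pool.Agent.Q5.VL.Cen
import Pool.Agent.Q5.VL.Fin

/-!
# Ranks of Chow groups and orders of vanishing: from thin families of number fields to all

`X` is a smooth projective variety of dimension `d` over a number field `K`, `1 ≤ j ≤ d`, and `V` is the
space `CH^j(X)_0 ⊗ ℚ` of the homologically trivial cycles over the algebraic closure modulo rational
equivalence, with the action `ρ` of the absolute Galois group of `K`; in the problem `d = 2i + 1` and
`j = i + 1`.  For every finite extension `F` of `K` the space `CH^j(X_F)_0 ⊗ ℚ` is the space of the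
invariants of the absolute Galois group of `F` in `V`.  The theorem holds for every rational representation
`V`, of finite or infinite dimension.  The Frobenius eigenvalues `IsFrobenius` and the Euler product `LFun`
are those of `Pool.Agent.W353.EF.Defs`.
-/

set_option autoImplicit false

namespace Pool.Agent.Results.MP_6dc9d1_nt.WideFamilies

open NumberField IsDedekindDomain Filter Polynomial
open Pool.Agent.W353.EF (IsFrobenius LFun)

/-- The polynomials `B v` are the Euler factors of `L(H^{2j-1}(X_F), s)`: `B_v(z) = ∏ (1 - α_k z)` for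
almost all primes `v` of `F`, where `α_1, …, α_N` are the eigenvalues of the Frobenius at `v` on
`H^{2j-1}`; at the other primes `B_v` is an arbitrary polynomial with `B_v(0) = 1`; and no factor
`1 / B_v(q_v^{-s})` has a pole at `s = j`. -/
def IsEulerSystem {K : Type} [Field K] {n : ℕ} (X : Set (MvPolynomial (Fin n) (𝓞 K))) (d j N : ℕ)
    {F : Type} [Field F] [NumberField F] [Algebra K F] (B : HeightOneSpectrum (𝓞 F) → ℂ[X]) : Prop :=
  ((∀ᶠ v in cofinite, ∃ α : Fin N → ℂ, IsFrobenius X d (2 * j - 1) v α ∧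
    ∀ z : ℂ, (B v).eval z = ∏ k, (1 - α k * z)) ∧
  ∀ v, (B v).eval 0 = 1) ∧
  ∀ v, (B v).eval (((Ideal.absNorm v.asIdeal : ℕ) : ℂ) ^ (-(j : ℂ))) ≠ 0

/-- `Ω` is connected, contains the point `j` and a half plane `Re s > c`; for example `Ω = ℂ`. -/
def IsDomain (Ω : Set ℂ) (j : ℕ) : Prop :=
  IsPreconnected Ω ∧ (j : ℂ) ∈ Ω ∧ ∃ c : ℝ, ∀ s : ℂ, c < s.re → s ∈ Ω

section
variable {K : Type} [Field K] [NumberField K] {V : Type} [AddCommGroup V] [Module ℚ V]
  (ρ : Representation ℚ Gal(AlgebraicClosure K/K) V) (F : Type) [Field F] [NumberField F]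
  [Algebra K F]

/-- The vectors of `V` fixed by the absolute Galois group of `F`, that is, by all automorphisms of the
algebraic closure of `K` that are trivial on the image of `F`.  For `V = CH^j(X)_0 ⊗ ℚ` this is
`CH^j(X_F)_0 ⊗ ℚ`. -/
noncomputable def cycles : Submodule ℚ V :=
  Pool.Agent.Q5.VL.fixV ρ (IsAlgClosed.lift : F →ₐ[K] AlgebraicClosure K)

variable {n : ℕ} (Ω : Set ℂ) (X : Set (MvPolynomial (Fin n) (𝓞 K))) (d j N : ℕ)

/-- `L(H^{2j-1}(X_F), s)^t` has a meromorphic continuation to `Ω`, and its order at `s = j` is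
`t` times the rank of `CH^j(X_F)_0`. -/
def PowerRank (t : ℕ) : Prop :=
  ∀ B : HeightOneSpectrum (𝓞 F) → ℂ[X], IsEulerSystem X d j N B →
    ∃ f : ℂ → ℂ, MeromorphicOn f Ω ∧ (∃ c : ℝ, ∀ s : ℂ, c < s.re → f s = LFun B s ^ t) ∧
      meromorphicOrderAt f j = ((t * Module.finrank ℚ (cycles ρ F) : ℤ) : WithTop ℤ)

/-- Beilinson's conjecture for `X_F`: `CH^j(X_F)_0` has finite rank, and `L(H^{2j-1}(X_F), s)` has a
meromorphic continuation to `Ω` whose order at `s = j` is this rank. -/
def Beilinson : Prop :=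
  FiniteDimensional ℚ (cycles ρ F) ∧
  ∀ B : HeightOneSpectrum (𝓞 F) → ℂ[X], IsEulerSystem X d j N B →
    ∃ f : ℂ → ℂ, MeromorphicOn f Ω ∧ (∃ c : ℝ, ∀ s : ℂ, c < s.re → f s = LFun B s) ∧
      meromorphicOrderAt f j = ((Module.finrank ℚ (cycles ρ F) : ℤ) : WithTop ℤ)

/-- `L(H^{2j-1}(X_F), s)` has a meromorphic continuation to `Ω`. -/
def Continues : Prop :=
  ∀ B : HeightOneSpectrum (𝓞 F) → ℂ[X], IsEulerSystem X d j N B →
    ∃ f : ℂ → ℂ, MeromorphicOn f Ω ∧ ∃ c : ℝ, ∀ s : ℂ, c < s.re → f s = LFun B s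

end

/-- A family of finite extensions of `K` inside the algebraic closure is wide if it is closed under
passing to larger finite extensions, and every automorphism of the algebraic closure over `K` fixes all
elements of some member of the family. -/
def Wide (K : Type) [Field K] (𝓕 : Set (IntermediateField K (AlgebraicClosure K))) : Prop :=
  (∀ F ∈ 𝓕, FiniteDimensional K F) ∧
  (∀ F ∈ 𝓕, ∀ F' : IntermediateField K (AlgebraicClosure K), FiniteDimensional K F' → F ≤ F' →
    F' ∈ 𝓕) ∧
  ∀ σ : AlgebraicClosure K ≃ₐ[K] AlgebraicClosure K, ∃ F ∈ 𝓕, ∀ x ∈ F, σ x = x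

/-- A set of positive integers closed under multiples, with greatest common divisor `1`; for example
the multiples of `10^100` together with the multiples of `3^100`, or all `n ≥ 10^100`. -/
def IsSparse (D : Set ℕ) : Prop :=
  (∀ d ∈ D, ∀ n : ℕ, 0 < n → d * n ∈ D) ∧ ∀ g : ℕ, (∀ d ∈ D, g ∣ d) → g = 1

/-- The law for wide families. -/
def WideLaw : Prop :=
  ∀ (K : Type) [Field K] [NumberField K] (𝓕 : Set (IntermediateField K (AlgebraicClosure K))),
    Wide K 𝓕 → ∃ t : ℕ, 0 < t ∧
      ∀ (n : ℕ) (X : Set (MvPolynomial (Fin n) (𝓞 K))) (d j N : ℕ) (V : Type) [AddCommGroup V]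
        [Module ℚ V] (ρ : Representation ℚ Gal(AlgebraicClosure K/K) V) (Ω : Set ℂ),
        1 ≤ j → j ≤ d → IsDomain Ω j →
        (∀ F ∈ 𝓕, ∀ [NumberField F], Beilinson ρ F Ω X d j N) →
        PowerRank ρ K Ω X d j N t ∧ (Continues K Ω X d j N → Beilinson ρ K Ω X d j N)

/-- Counterexamples spread to every wide family. -/
def SpreadLaw : Prop :=
  ∀ (K : Type) [Field K] [NumberField K] (𝓕 : Set (IntermediateField K (AlgebraicClosure K))),
    Wide K 𝓕 → ∀ (n : ℕ) (X : Set (MvPolynomial (Fin n) (𝓞 K))) (d j N : ℕ) (V : Type)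
      [AddCommGroup V] [Module ℚ V] (ρ : Representation ℚ Gal(AlgebraicClosure K/K) V) (Ω : Set ℂ),
      1 ≤ j → j ≤ d → IsDomain Ω j → Continues K Ω X d j N → ¬ Beilinson ρ K Ω X d j N →
      ∃ F ∈ 𝓕, ∃ _ : NumberField F, ¬ Beilinson ρ F Ω X d j N

/-- The law for the degrees. -/
def DegreeLaw : Prop :=
  ∀ (K : Type) [Field K] [NumberField K] (n : ℕ) (X : Set (MvPolynomial (Fin n) (𝓞 K)))
    (d j N : ℕ) (V : Type) [AddCommGroup V] [Module ℚ V]
    (ρ : Representation ℚ Gal(AlgebraicClosure K/K) V) (Ω : Set ℂ),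
    1 ≤ j → j ≤ d → IsDomain Ω j →
    (∀ D : Set ℕ, IsSparse D →
      (∀ (F : Type) [Field F] [NumberField F] [Algebra K F], Module.finrank K F ∈ D →
        Beilinson ρ F Ω X d j N) →
      ∀ (F : Type) [Field F] [NumberField F] [Algebra K F], Beilinson ρ F Ω X d j N) ∧
    ∀ M : ℕ, 0 < M →
      (∀ (F : Type) [Field F] [NumberField F] [Algebra K F], M ∣ Module.finrank K F →
        Beilinson ρ F Ω X d j N) →
      ∀ (F : Type) [Field F] [NumberField F] [Algebra K F],
        PowerRank ρ F Ω X d j N (M / M.gcd (Module.finrank K F)) ∧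
        (Continues F Ω X d j N → Beilinson ρ F Ω X d j N)

section
variable {K : Type} [Field K] [NumberField K] {V : Type} [AddCommGroup V] [Module ℚ V]
  {ρ : Representation ℚ Gal(AlgebraicClosure K/K) V} {F : Type} [Field F] [NumberField F]
  [Algebra K F] {n : ℕ} {Ω : Set ℂ} {X : Set (MvPolynomial (Fin n) (𝓞 K))} {d j N : ℕ}

/-- the property of the fields -/
def PB (ρ : Representation ℚ Gal(AlgebraicClosure K/K) V) (Ω : Set ℂ)
    (X : Set (MvPolynomial (Fin n) (𝓞 K))) (d j N : ℕ) (F : Type) [Field F] [NumberField F]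
    [Algebra K F] (t : ℤ) : Prop :=
  ∀ B : HeightOneSpectrum (𝓞 F) → ℂ[X], Pool.Agent.Q5.VL.ES X d (2 * j - 1) N (j : ℂ) B →
    Pool.Agent.Q5.VL.PowO Ω (j : ℂ) B t (t * (1 * Pool.Agent.Q5.VL.rk ρ F))

theorem power_iff (t : ℕ) : PowerRank ρ F Ω X d j N t ↔ PB ρ Ω X d j N F (t : ℤ) := by
  unfold PowerRank PB Pool.Agent.Q5.VL.PowO
  have h1 : ((t : ℤ) * (1 * Pool.Agent.Q5.VL.rk ρ F) : ℤ) =
      t * Module.finrank ℚ (cycles ρ F) := by
    rw [one_mul]
    rfl
  rw [h1]
  simp only [zpow_natCast]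
  rfl

theorem power_one (h : Beilinson ρ F Ω X d j N) : PB ρ Ω X d j N F 1 := by
  intro B hB
  obtain ⟨f, h1, h2, h3⟩ := h.2 B hB
  refine ⟨f, h1, by simpa only [zpow_one] using h2, ?_⟩
  rw [one_mul, one_mul]
  exact h3

theorem beilinson_of_one (hV : FiniteDimensional ℚ (cycles ρ F)) (h : PB ρ Ω X d j N F 1) :
    Beilinson ρ F Ω X d j N := by
  refine ⟨hV, fun B hB => ?_⟩
  obtain ⟨f, h1, h2, h3⟩ := h B hB
  refine ⟨f, h1, by simpa only [zpow_one] using h2, ?_⟩
  rw [one_mul, one_mul] at h3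
  exact h3

theorem beilinson_of (hV : FiniteDimensional ℚ (cycles ρ F)) (hΩ : IsDomain Ω j) {t : ℕ}
    (ht : t ≠ 0) (h : PowerRank ρ F Ω X d j N t) (hc : Continues F Ω X d j N) :
    Beilinson ρ F Ω X d j N := by
  refine ⟨hV, fun B hB => ?_⟩
  obtain ⟨f, h1, h2⟩ := hc B hB
  refine ⟨f, h1, h2, ?_⟩
  rw [power_iff] at h
  have h3 := h B hB
  rw [one_mul] at h3
  exact Pool.Agent.Q5.VL.PowO.order hΩ ht h3 h1 h2

theorem law (hj : 1 ≤ j) (hjd : j ≤ d) (hΩ : IsDomain Ω j)
    (hV : ∀ N : IntermediateField K (AlgebraicClosure K), FiniteDimensional K N →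
      FiniteDimensional ℚ (Pool.Agent.Q5.VL.fixV ρ N.val)) :
    Pool.Agent.Q5.VL.IsLaw (PB ρ Ω X d j N) := by
  refine Pool.Agent.Q5.VL.law_cen (by omega) hΩ ?_ 1 hV
  have h1 : (((2 * j - 1 : ℕ) : ℝ)) = 2 * j - 1 := by
    rw [Nat.cast_sub (by omega)]
    push_cast
    ring
  rw [h1, Complex.natCast_re]
  linarith

/-- finiteness over all fields -/
theorem fin_F (hV : ∀ N : IntermediateField K (AlgebraicClosure K), FiniteDimensional K N →
      FiniteDimensional ℚ (Pool.Agent.Q5.VL.fixV ρ N.val)) (F : Type) [Field F] [NumberField F]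
    [Algebra K F] : FiniteDimensional ℚ (cycles ρ F) := by
  let i : F →ₐ[K] AlgebraicClosure K := IsAlgClosed.lift
  have hfd : FiniteDimensional K i.fieldRange :=
    LinearEquiv.finiteDimensional (AlgEquiv.ofInjectiveField i).toLinearEquiv
  have h1 := hV i.fieldRange hfd
  refine @Submodule.finiteDimensional_of_le _ _ _ _ _ _ _ h1 ?_
  intro v hv σ hσ
  refine hv σ ?_
  apply AlgHom.ext
  intro x
  exact DFunLike.congr_fun hσ ⟨i x, ⟨x, rfl⟩⟩

/-- finiteness over intermediate fields -/
theorem fin_val {N : IntermediateField K (AlgebraicClosure K)} [NumberField N]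
    (h : FiniteDimensional ℚ (cycles ρ N)) :
    FiniteDimensional ℚ (Pool.Agent.Q5.VL.fixV ρ N.val) :=
  Pool.Agent.Q5.VL.fin_fixV ρ h N.val

end

/-- **Beilinson's conjecture on the ranks of Chow groups can be tested on thin families of number
fields.**  Let `K` be a number field, `X` a smooth projective variety over `K` of dimension `d`,
`1 ≤ j ≤ d`, and `V = CH^j(X)_0 ⊗ ℚ` over the algebraic closure, or any rational representation of the
absolute Galois group of `K`; let `Ω` be a connected set containing `j` and some half plane `Re s > c`, for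
example `Ω = ℂ`.
1. Let `𝓕` be a wide family of finite extensions of `K`, and suppose that the conjecture holds for `X_F`
for all `F` in `𝓕`.  Then `L(H^{2j-1}(X), s)^t` has a continuation to `Ω` of order `t · rank CH^j(X)_0` at
`s = j`, for a number `t > 0` which depends only on `𝓕`; and the conjecture holds for `X` if
`L(H^{2j-1}(X), s)` has a continuation to `Ω`.
2. Counterexamples spread: if `L(H^{2j-1}(X), s)` has a continuation to `Ω` and the conjecture fails for
`X`, then every wide family contains a field `F` such that it fails for `X_F`.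
3. The intersection of two wide families is wide, and the extensions of degree divisible by `M` form a wide
family.
4. If the conjecture holds for `X_F` for all `F/K` with `[F:K] ∈ D`, it holds for all `F/K`.  If it holds
for all `F/K` with `M ∣ [F:K]`, then for all `F/K` the function `L(H^{2j-1}(X_F), s)^t`,
`t = M / gcd(M, [F:K])`, has a continuation of order `t · rank CH^j(X_F)_0` at `s = j`, and the conjecture
holds for `X_F` if `L(H^{2j-1}(X_F), s)` has a continuation. -/
theorem result :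
    WideLaw ∧ SpreadLaw ∧
    (∀ (K : Type) [Field K] [NumberField K],
      (∀ 𝓕 𝓖 : Set (IntermediateField K (AlgebraicClosure K)), Wide K 𝓕 → Wide K 𝓖 →
        Wide K (𝓕 ∩ 𝓖)) ∧
      ∀ M : ℕ, 0 < M → Wide K {F | FiniteDimensional K F ∧ M ∣ Module.finrank K F}) ∧
    DegreeLaw := by
  have wide : WideLaw := by
    intro K _ _ 𝓕 hF
    obtain ⟨t, ht, hlaw⟩ := Pool.Agent.Q5.VL.wide_law (K := K) hF
    refine ⟨t, ht, fun n X d j N V _ _ ρ Ω hj hjd hΩ h => ?_⟩
    have hV : ∀ N : IntermediateField K (AlgebraicClosure K), FiniteDimensional K N →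
        FiniteDimensional ℚ (Pool.Agent.Q5.VL.fixV ρ N.val) := by
      refine Pool.Agent.Q5.VL.fin_all ρ fun N hN => ?_
      obtain ⟨N', h1, h2⟩ := Pool.Agent.Q5.VL.wide_cofinal hF N hN
      have hfd := hF.1 N' h1
      have hnf : NumberField N' := NumberField.of_module_finite K _
      exact ⟨N', h2, fin_val (h N' h1).1⟩
    have h1 : PowerRank ρ K Ω X d j N t := by
      rw [power_iff]
      have h2 := hlaw _ (law (X := X) (N := N) hj hjd hΩ hV) 1
        (fun F hF' _ => power_one (h F hF'))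
      rw [mul_one] at h2
      exact h2
    exact ⟨h1, beilinson_of (fin_F hV K) hΩ ht.ne' h1⟩
  refine ⟨wide, ?_, fun K _ _ => ⟨fun 𝓕 𝓖 h1 h2 => Pool.Agent.Q5.HR.Wide.inter h1 h2, fun M hM =>
    Pool.Agent.Q5.HR.wide_deg hM⟩, ?_⟩
  · intro K _ _ 𝓕 hF n X d j N V _ _ ρ Ω hj hjd hΩ hc hnot
    by_contra hcon
    push Not at hcon
    obtain ⟨t, ht, hlaw⟩ := wide K 𝓕 hF
    exact hnot ((hlaw n X d j N V ρ Ω hj hjd hΩ (fun F hF' _ => hcon F hF' _)).2 hc)
  · intro K _ _ n X d j N V _ _ ρ Ω hj hjd hΩ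
    have key : ∀ M : ℕ, 0 < M →
        (∀ (F : Type) [Field F] [NumberField F] [Algebra K F], M ∣ Module.finrank K F →
          Beilinson ρ F Ω X d j N) →
        ∀ N : IntermediateField K (AlgebraicClosure K), FiniteDimensional K N →
        FiniteDimensional ℚ (Pool.Agent.Q5.VL.fixV ρ N.val) := by
      intro M hM h
      refine Pool.Agent.Q5.VL.fin_all ρ fun N hN => ?_
      obtain ⟨N', h1, h2⟩ :=
        Pool.Agent.Q5.VL.wide_cofinal (Pool.Agent.Q5.HR.wide_deg (K := K) hM) N hN
      have hfd := h1.1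
      have hnf : NumberField N' := NumberField.of_module_finite K _
      exact ⟨N', h2, fin_val (h N' h1.2).1⟩
    refine ⟨fun D hD h F _ _ _ => ?_, fun M hM h F _ _ _ => ?_⟩
    · obtain ⟨M, hMD, hM0⟩ : ∃ M ∈ D, 0 < M := by
        by_contra hcon
        push Not at hcon
        have h1 := hD.2 0 (fun d hd => by
          have := hcon d hd
          have h0 : d = 0 := by omega
          rw [h0])
        exact absurd h1 (by norm_num)
      have hV := key M hM0 (fun F _ _ _ hF => h F (by
        obtain ⟨c, hc⟩ := hF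
        rw [hc]
        refine hD.1 M hMD c (Nat.pos_of_ne_zero ?_)
        rintro rfl
        rw [mul_zero] at hc
        exact (Module.finrank_pos (R := K) (M := F)).ne' hc))
      exact beilinson_of_one (fin_F hV F)
        (Pool.Agent.Q5.VL.gen_sparse_law (law (X := X) (N := N) hj hjd hΩ hV) hD.1 hD.2
          (fun F _ _ _ hF => power_one (h F hF)) F)
    · have hV := key M hM h
      have h1 : PowerRank ρ F Ω X d j N (M / M.gcd (Module.finrank K F)) := by
        rw [power_iff]
        exact Pool.Agent.Q5.VL.gen_power_law' (law (X := X) (N := N) hj hjd hΩ hV) (M := M)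
          (fun F _ _ _ hF => power_one (h F hF)) F
      exact ⟨h1, beilinson_of (fin_F hV F) hΩ (Nat.div_pos (Nat.le_of_dvd hM (Nat.gcd_dvd_left _ _))
        (Nat.gcd_pos_of_pos_left _ hM)).ne' h1⟩

end Pool.Agent.Results.MP_6dc9d1_nt.WideFamilies
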